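import Pool.Agent.helper76.FF2.Spec

/-!
Row MSQ of project FF2: all admissible primes (a copy of `main_sq` of helper36).
-/

set_option autoImplicit false

namespace Pool.Agent.FF2

open Polynomial helper36.FF

theorem MSQ (F : Type*) [Field F] [Fintype F] [CharP F 2] (h1 : REM_stmt F) : MSQ_stmt F := by
  classical
  intro G σ hσ M a hM
  -- small admissible primes
  obtain ⟨SP, hSP⟩ := finite_small (F := F) G.card (fun π => π.Monic ∧ Irreducible π ∧ ¬ π ∣ M ∧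
    ∃ x : F[X], ∀ g ∈ G, ¬ π ^ 2 ∣ x + g)
  have hxex : ∀ π : F[X], ∃ x : F[X], π ∈ SP → ∀ g ∈ G, ¬ π ^ 2 ∣ x + g := by
    intro π
    by_cases h : π ∈ SP
    · obtain ⟨x, hx⟩ := ((hSP π).mp h).2.2.2.2
      exact ⟨x, fun _ => hx⟩
    · exact ⟨0, fun h' => absurd h' h⟩
  choose xx hxx using hxex
  obtain ⟨x1, hx1⟩ := crt_finset SP (fun π => π ^ 2) xx (by
    intro π h π' h' hne
    have h1 := (hSP π).mp h
    have h2 := (hSP π').mp h'
    exact (coprime_of_ne h1.2.1 h2.2.1 h1.2.2.1 h2.2.2.1 hne).pow)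
  obtain ⟨a1, ha1, ha1'⟩ := crt_pair (A := M) (B := ∏ π ∈ SP, π ^ 2) (by
    apply IsCoprime.prod_right
    intro π h
    have h1 := (hSP π).mp h
    exact (h1.2.2.1.coprime_iff_not_dvd.mpr h1.2.2.2.1).symm.pow_right) a x1
  set M1 : F[X] := M * ∏ π ∈ SP, π ^ 2 with hM1
  have hM1ne : M1 ≠ 0 := by
    apply mul_ne_zero hM
    apply Finset.prod_ne_zero_iff.mpr
    intro π h
    exact pow_ne_zero _ ((hSP π).mp h).2.1.ne_zero
  obtain ⟨c, hc⟩ := h1 G σ hσ M1 a1 hM1ne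
  refine ⟨c, fun n hn => ?_⟩
  obtain ⟨S, hS, hS2⟩ := hc n hn
  refine ⟨S, hS, fun f hf => ?_⟩
  obtain ⟨f1, f2, f3, f4, f5⟩ := hS2 f hf
  have hfa : M ∣ f - a := by
    have h1 : M ∣ f - a1 := (dvd_mul_right _ _).trans f3
    have : f - a = (f - a1) + (a1 - a) := by ring
    rw [this]
    exact dvd_add h1 ha1
  refine ⟨f1, f2, hfa, f4, ?_⟩
  intro π hi hπM hadm g hg hdvd
  obtain ⟨π', m', i', hass, hdeg'⟩ := exists_monic_assoc hi
  have hπ'M : ¬ π' ∣ M := by rwa [← hass.dvd_iff_dvd_left]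
  by_cases hsmall : π.natDegree ≤ G.card
  · have hmem : π' ∈ SP := by
      rw [hSP]
      refine ⟨by rw [hdeg']; exact hsmall, m', i', hπ'M, ?_⟩
      obtain ⟨x, hx⟩ := hadm
      exact ⟨x, fun g hg h => hx g hg (sq_dvd_assoc hass.symm h)⟩
    apply hxx π' hmem g hg
    have e0 : π' ^ 2 ∣ ∏ π ∈ SP, π ^ 2 := Finset.dvd_prod_of_mem (fun π => π ^ 2) hmem
    have e1 : π' ^ 2 ∣ f - a1 := (e0.trans (dvd_mul_left _ _)).trans f3
    have e2 : π' ^ 2 ∣ a1 - x1 := e0.trans ha1'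
    have e3 : π' ^ 2 ∣ x1 - xx π' := hx1 π' hmem
    have e4 : π' ^ 2 ∣ f + g := sq_dvd_assoc hass hdvd
    have : xx π' + g = (f + g) - ((f - a1) + (a1 - x1) + (x1 - xx π')) := by ring
    rw [this]
    exact dvd_sub e4 (dvd_add (dvd_add e1 e2) e3)
  · push Not at hsmall
    apply f5 π hi hsmall _ g hg hdvd
    intro hd
    rcases hi.prime.dvd_or_dvd hd with h | h
    · exact hπM h
    · obtain ⟨π'', hπ'', h''⟩ := (hi.prime.dvd_finsetProd_iff _).mp h
      have h3 := (hSP π'').mp hπ''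
      have h4 : π ∣ π'' := hi.prime.dvd_of_dvd_pow h''
      have h5 := natDegree_le_of_dvd h4 h3.2.1.ne_zero
      omega

end Pool.Agent.FF2
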