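import Pool.Agent.helper76.FF2.Spec

/-!
Row REM of project FF2: all degrees, by multiplication with `Q * X ^ i`.
-/

set_option autoImplicit false

namespace Pool.Agent.FF2

open Polynomial helper36.FF

lemma REM_deriv (F : Type*) [Field F] [Fintype F] [CharP F 2] (Q : F[X]) (hQ : Irreducible Q)
    (hQ1 : 1 < Q.natDegree) (i : ℕ) (h : F[X]) (hh : h ≠ 0) (hd : h.natDegree < Q.natDegree)
    (hz : derivative (Q * X ^ i * h) = 0) : False := by
  have : Fact (Nat.Prime 2) := ⟨Nat.prime_two⟩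
  obtain ⟨k, hk⟩ := exists_pth_root 2 _ hz
  have h1 : Q ∣ k ^ 2 := by
    rw [← hk]
    exact ⟨X ^ i * h, by ring⟩
  have h2 : Q ∣ k := hQ.prime.dvd_of_dvd_pow h1
  obtain ⟨k', rfl⟩ := h2
  have h3 : X ^ i * h = Q * k' ^ 2 := by
    apply mul_left_cancel₀ hQ.ne_zero
    linear_combination hk
  have h4 : Q ∣ X ^ i * h := ⟨_, h3⟩
  rcases hQ.prime.dvd_or_dvd h4 with h5 | h5
  · have h6 : Q ∣ X := hQ.prime.dvd_of_dvd_pow h5
    have h7 := natDegree_le_of_dvd h6 X_ne_zero
    rw [natDegree_X] at h7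
    omega
  · have h7 := natDegree_le_of_dvd h5 hh
    omega

theorem REM (F : Type*) [Field F] [Fintype F] [CharP F 2] (h1 : AVO_stmt F) (h2 : MN2_stmt F) :
    REM_stmt F := by
  classical
  intro G σ hσ M a hM
  obtain ⟨Q, hQm, hQi, hQd⟩ := exists_irr (F := F)
    (G.card + 2 + M.natDegree + ∑ g ∈ G, g.natDegree) (by omega)
  have hgd : ∀ g ∈ G, g.natDegree ≤ ∑ g ∈ G, g.natDegree := fun g hg =>
    Finset.single_le_sum (f := fun g : F[X] => g.natDegree) (fun _ _ => Nat.zero_le _) hg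
  have hcQ : IsCoprime M Q := by
    apply IsCoprime.symm
    rw [hQi.coprime_iff_not_dvd]
    intro hd
    have := natDegree_le_of_dvd hd hM
    omega
  obtain ⟨y, hy⟩ := h1 Q hQi G 0 (by
    have h3 : Q.natDegree < Fintype.card F ^ Q.natDegree := Nat.lt_pow_self Fintype.one_lt_card
    omega)
  obtain ⟨a1, ha1, ha1'⟩ := crt_pair hcQ a (y ^ 4)
  have hΛ0 : ∀ i : ℕ, Q * X ^ i ≠ 0 := fun i => mul_ne_zero hQi.ne_zero (pow_ne_zero _ X_ne_zero)
  have hΛm : ∀ i : ℕ, (Q * X ^ i).Monic := fun i => hQm.mul (monic_X_pow i)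
  have hΛd : ∀ i : ℕ, (Q * X ^ i).natDegree = Q.natDegree + i := fun i => by
    rw [natDegree_mul hQi.ne_zero (pow_ne_zero _ X_ne_zero), natDegree_X_pow]
  have hex : ∀ i : ℕ, ∃ c : ℕ, ∀ d : ℕ, c ≤ d → ∃ S : Finset F[X],
      Fintype.card F ^ (d - c) ≤ S.card ∧
      ∀ f ∈ S, f.Monic ∧ f.natDegree = 4 * d ∧ (Q * X ^ i) * (M * Q) ∣ f - (Q * X ^ i) * a1 ∧
        (∀ g ∈ G.image (fun g => (Q * X ^ i) * g), lam (f + g) =
          lam (Q * X ^ i) * σ (g / (Q * X ^ i))) ∧
        ∀ π : F[X], Irreducible π → (G.image (fun g => (Q * X ^ i) * g)).card < π.natDegree →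
          ¬ π ∣ (Q * X ^ i) * (M * Q) →
          ∀ g ∈ G.image (fun g => (Q * X ^ i) * g), ¬ π ^ 2 ∣ f + g := by
    intro i
    apply h2
    · intro g hg
      obtain ⟨g0, hg0, rfl⟩ := Finset.mem_image.mp hg
      rw [mul_div_cancel_left₀ _ (hΛ0 i)]
      rcases lam_eq (Q * X ^ i) with h3 | h3 <;> rcases hσ g0 hg0 with h4 | h4 <;> rw [h3, h4] <;>
        simp
    · exact mul_ne_zero (hΛ0 i) (mul_ne_zero hM hQi.ne_zero)
    · intro g hg g' hg' hne heq
      obtain ⟨g0, hg0, rfl⟩ := Finset.mem_image.mp hg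
      obtain ⟨g1, hg1, rfl⟩ := Finset.mem_image.mp hg'
      have hne' : g0 - g1 ≠ 0 := by
        intro h
        apply hne
        rw [sub_eq_zero.mp h]
      apply REM_deriv F Q hQi (by omega) i (g0 - g1) hne'
      · have h3 := natDegree_sub_le g0 g1
        have h4 := hgd g0 hg0
        have h5 := hgd g1 hg1
        have h6 : max g0.natDegree g1.natDegree ≤ ∑ g ∈ G, g.natDegree := max_le h4 h5
        omega
      · rw [mul_sub, derivative_sub]
        exact sub_eq_zero.mpr heq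
  choose c hc using hex
  refine ⟨4 * (c 0 + c 1 + c 2 + c 3) + ∑ g ∈ G, g.natDegree + 1, fun n hn => ?_⟩
  obtain ⟨i, d, hi, hd, hci⟩ : ∃ i d : ℕ, 4 * d = n + (Q.natDegree + i) ∧ n / 4 ≤ d ∧
      c i ≤ c 0 + c 1 + c 2 + c 3 := by
    have h3 : (n + Q.natDegree) % 4 < 4 := Nat.mod_lt _ (by omega)
    have h4 := Nat.mod_add_div (n + Q.natDegree) 4
    generalize hr : (n + Q.natDegree) % 4 = r at h3 h4
    interval_cases r
    · exact ⟨0, (n + Q.natDegree) / 4, by omega, by omega, by omega⟩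
    · exact ⟨3, (n + Q.natDegree) / 4 + 1, by omega, by omega, by omega⟩
    · exact ⟨2, (n + Q.natDegree) / 4 + 1, by omega, by omega, by omega⟩
    · exact ⟨1, (n + Q.natDegree) / 4 + 1, by omega, by omega, by omega⟩
  obtain ⟨S', hS', hS2⟩ := hc i d (by omega)
  have hfac : ∀ f ∈ S', ∃ f0 : F[X], f = (Q * X ^ i) * f0 := by
    intro f hf
    have h3 : Q * X ^ i ∣ f - (Q * X ^ i) * a1 := (dvd_mul_right _ _).trans (hS2 f hf).2.2.1
    have h4 : f = (f - (Q * X ^ i) * a1) + (Q * X ^ i) * a1 := by ring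
    have h5 : Q * X ^ i ∣ f := by
      rw [h4]
      exact dvd_add h3 (dvd_mul_right _ _)
    exact h5
  refine ⟨S'.image (fun f => f / (Q * X ^ i)), ?_, fun f hf => ?_⟩
  · rw [Finset.card_image_of_injOn]
    · refine le_trans (Nat.pow_le_pow_right Fintype.card_pos ?_) hS'
      omega
    · intro f hf f' hf' heq
      obtain ⟨u, rfl⟩ := hfac f hf
      obtain ⟨v, rfl⟩ := hfac f' hf'
      simp only at heq
      rw [mul_div_cancel_left₀ _ (hΛ0 i), mul_div_cancel_left₀ _ (hΛ0 i)] at heq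
      rw [heq]
  · obtain ⟨f', hf', rfl⟩ := Finset.mem_image.mp hf
    obtain ⟨u, rfl⟩ := hfac f' hf'
    rw [mul_div_cancel_left₀ _ (hΛ0 i)]
    obtain ⟨f1, f2, f3, f4, f5⟩ := hS2 _ hf'
    have hum : u.Monic := (hΛm i).of_mul_monic_left f1
    have hud : u.natDegree = n := by
      rw [natDegree_mul (hΛ0 i) hum.ne_zero, hΛd i] at f2
      omega
    have hMQ : M * Q ∣ u - a1 := by
      have h3 : (Q * X ^ i) * (M * Q) ∣ (Q * X ^ i) * (u - a1) := by
        rw [mul_sub]
        exact f3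
      exact (mul_dvd_mul_iff_left (hΛ0 i)).mp h3
    have hug : ∀ g ∈ G, u + g ≠ 0 := by
      intro g hg h0
      have h3 : u = -g := eq_neg_of_add_eq_zero_left h0
      have h4 := hgd g hg
      rw [h3, natDegree_neg] at hud
      omega
    refine ⟨hum, hud, ?_, ?_, ?_⟩
    · have h3 : M ∣ u - a1 := (dvd_mul_right _ _).trans hMQ
      have : u - a = (u - a1) + (a1 - a) := by ring
      rw [this]
      exact dvd_add h3 ha1
    · intro g hg
      have h3 := f4 _ (Finset.mem_image_of_mem _ hg)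
      rw [mul_div_cancel_left₀ _ (hΛ0 i), ← mul_add, lam_mul (hΛ0 i) (hug g hg)] at h3
      have h4 : lam (Q * X ^ i) ≠ 0 := by
        intro h
        have := lam_sq (Q * X ^ i)
        rw [h] at this
        simp at this
      exact mul_left_cancel₀ h4 h3
    · intro π hπ hπc hπM g hg hdvd
      by_cases hπ' : π ∣ (Q * X ^ i) * (M * Q)
      · have hπQ : π ∣ Q := by
          rcases hπ.prime.dvd_or_dvd hπ' with h3 | h3
          · rcases hπ.prime.dvd_or_dvd h3 with h4 | h4
            · exact h4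
            · exfalso
              have h6 : π ∣ X := hπ.prime.dvd_of_dvd_pow h4
              have h7 := natDegree_le_of_dvd h6 X_ne_zero
              rw [natDegree_X] at h7
              have h8 : 0 < G.card := Finset.card_pos.mpr ⟨g, hg⟩
              omega
          · rcases hπ.prime.dvd_or_dvd h3 with h4 | h4
            · exact absurd h4 hπM
            · exact h4
        have hass : Q ∣ π := (hπ.associated_of_dvd hQi hπQ).symm.dvd
        apply hy g hg
        have e1 : Q ∣ u + g := (hass.trans (dvd_pow_self _ two_ne_zero)).trans hdvd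
        have e2 : Q ∣ u - a1 := (dvd_mul_left _ _).trans hMQ
        have : 0 + g + y ^ 4 = (u + g) - ((u - a1) + (a1 - y ^ 4)) := by ring
        rw [this]
        exact dvd_sub e1 (dvd_add e2 ha1')
      · apply f5 π hπ (lt_of_le_of_lt Finset.card_image_le hπc) hπ' _
          (Finset.mem_image_of_mem _ hg)
        rw [← mul_add]
        exact hdvd.trans (dvd_mul_left _ _)

end Pool.Agent.FF2
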